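import Mathlib.RingTheory.LocalRing.Basic
import Mathlib.FieldTheory.Minpoly.Field
import Mathlib.RingTheory.Polynomial.Basic
import Mathlib.Algebra.Polynomial.Div
import Mathlib.RingTheory.Nilpotent.Basic
import Mathlib.RingTheory.Coprime.Lemmas

/-!
# Rings with algebraic elements and without idempotents are local
-/

set_option autoImplicit false

open Polynomial

namespace Pool.Agent.Lib.OrlovNil

/-- An element of a `ℚ`-algebra without nontrivial idempotents which is a root of a nonzero polynomial
is nilpotent or invertible. -/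
theorem isNilpotent_or_isUnit {E : Type*} [Ring E] [Algebra ℚ E]
    (hid : ∀ e : E, e * e = e → e = 0 ∨ e = 1) {x : E} {p : ℚ[X]} (hp : p ≠ 0)
    (hx : aeval x p = 0) : IsNilpotent x ∨ IsUnit x := by
  obtain ⟨q, hq, hq0⟩ := exists_eq_pow_rootMultiplicity_mul_and_not_dvd p hp 0
  rw [C_0, sub_zero] at hq hq0
  set a := p.rootMultiplicity 0 with ha
  -- `X` and `q` are coprime
  have hcop : IsCoprime (X : ℚ[X]) q :=
    (Irreducible.coprime_iff_not_dvd irreducible_X).2 hq0
  have hcop' : IsCoprime ((X : ℚ[X]) ^ a) q := hcop.pow_left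
  obtain ⟨u, v, huv⟩ := hcop'
  have h1 : aeval x (u * X ^ a) + aeval x (v * q) = 1 := by
    rw [← map_add, huv, map_one]
  have h0 : aeval x (v * q) * aeval x (u * X ^ a) = 0 := by
    rw [← map_mul]
    have : v * q * (u * X ^ a) = (u * v) * p := by rw [hq]; ring
    rw [this, map_mul, hx, mul_zero]
  have hide : aeval x (v * q) * aeval x (v * q) = aeval x (v * q) := by
    calc aeval x (v * q) * aeval x (v * q) = aeval x (v * q) * (1 - aeval x (u * X ^ a)) := by
          rw [← h1]; abel_nf
      _ = aeval x (v * q) := by rw [mul_sub, mul_one, h0, sub_zero]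
  rcases hid _ hide with h | h
  · -- `u X ^ a` acts as `1`
    right
    rw [h, add_zero] at h1
    rcases Nat.eq_zero_or_pos a with ha0 | ha0
    · -- `q (0) ≠ 0` and `q (x) = 0`
      rw [ha0, pow_zero, one_mul] at hq
      obtain ⟨u', v', huv'⟩ := hcop
      have h2 : aeval x (u' * X) + aeval x (v' * q) = 1 := by rw [← map_add, huv', map_one]
      have h5 : aeval x (v' * q) = 0 := by rw [← hq, map_mul, hx, mul_zero]
      rw [h5, add_zero, map_mul, aeval_X] at h2
      have h3 : x * aeval x u' = 1 := by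
        have h4 : aeval x (u' * X) = aeval x (X * u') := by rw [mul_comm]
        rw [map_mul, map_mul, aeval_X] at h4
        rw [← h4, h2]
      exact ⟨⟨x, aeval x u', h3, h2⟩, rfl⟩
    · obtain ⟨b, hb⟩ : ∃ b, a = b + 1 := ⟨a - 1, by omega⟩
      have h2 : aeval x (u * X ^ b) * x = 1 := by
        rw [← h1, hb, pow_succ, ← mul_assoc, map_mul _ (u * X ^ b), aeval_X]
      have h3 : x * aeval x (u * X ^ b) = 1 := by
        have h4 : aeval x (X * (u * X ^ b)) = aeval x ((u * X ^ b) * X) := by rw [mul_comm]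
        rw [map_mul, map_mul _ (u * X ^ b), aeval_X, h2] at h4
        exact h4
      exact ⟨⟨x, _, h3, h2⟩, rfl⟩
  · left
    refine ⟨a, ?_⟩
    have h2 : aeval x ((X : ℚ[X]) ^ a) = x ^ a := by rw [map_pow, aeval_X]
    have h3 : aeval x ((X : ℚ[X]) ^ a * (v * q)) = 0 := by
      have h4 : (X : ℚ[X]) ^ a * (v * q) = v * p := by
        rw [mul_left_comm, ← hq]
      rw [h4, map_mul, hx, mul_zero]
    rw [map_mul, h, mul_one, h2] at h3
    exact h3

/-- A nontrivial `ℚ`-algebra with algebraic elements and without nontrivial idempotents is local. -/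
theorem isLocalRing_of_algebraic {E : Type*} [Ring E] [Algebra ℚ E] [Nontrivial E]
    (hid : ∀ e : E, e * e = e → e = 0 ∨ e = 1)
    (halg : ∀ x : E, ∃ p : ℚ[X], p ≠ 0 ∧ aeval x p = 0) : IsLocalRing E := by
  refine IsLocalRing.of_isUnit_or_isUnit_one_sub_self (fun x => ?_)
  obtain ⟨p, hp, hx⟩ := halg x
  rcases isNilpotent_or_isUnit hid hp hx with h | h
  · exact Or.inr h.isUnit_one_sub
  · exact Or.inl h

end Pool.Agent.Lib.OrlovNil
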