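import Pool.Agent.Lib.MP_5c0b30_ag.Defs
import Mathlib.Algebra.Category.ModuleCat.Abelian
import Mathlib.Algebra.Ring.Action.Basic
import Mathlib.CategoryTheory.Equivalence
import Mathlib.CategoryTheory.Linear.Basic
import Mathlib.CategoryTheory.Preadditive.Biproducts
import Mathlib.CategoryTheory.Shift.ShiftedHom
import Mathlib.GroupTheory.Index

/-!
# Varieties with few cycles over the function field of the base: definitions

`X` is the geometric generic member of a family of smooth projective varieties over `B`, `K` is the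
function field of `B`. `V` is the category of correspondences of all degrees between smooth projective
varieties over an algebraic closure of `K`, with rational coefficients, and `coh` is the rational
cohomology, the direct sum of all degrees. The group `Γ` is the Galois group of `K`.
-/

set_option autoImplicit false

open CategoryTheory CategoryTheory.Limits

namespace Pool.Agent.Lib.OrlovNil

open Pool.Agent.Lib.MP_5c0b30_ag

universe v u v₁ u₁

/-- The sums of compositions `X ⟶ Q ⟶ X`: the correspondences that factor through a finite direct sum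
of copies of `Q` (Tate twists are built in, as all degrees are allowed). -/
def Through {V : Type u₁} [Category.{v₁} V] [Preadditive V] (X Q : V) : AddSubgroup (X ⟶ X) :=
  AddSubgroup.closure {t | ∃ (a : X ⟶ Q) (b : Q ⟶ X), t = a ≫ b}

/-- The homologically trivial self-correspondences of `X`, of all degrees, are nilpotent. -/
def HomNil {V : Type u₁} [Category.{v₁} V] [Preadditive V] (coh : V ⥤ ModuleCat.{0} ℚ) (X : V) :
    Prop :=
  ∀ t : End X, coh.map (t : X ⟶ X) = 0 → IsNilpotent t

/-- The correspondences over `K` are rational numbers, up to correspondences of positive degree and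
correspondences that factor through finite sums of (twists of) `Q`. -/
structure FewCycles {V : Type u₁} [Category.{v₁} V] [Preadditive V] [Linear ℚ V]
    (coh : V ⥤ ModuleCat.{0} ℚ) (X Q : V) (Γ : Type*) [Group Γ] [MulSemiringAction Γ (End X)] where
  /-- every correspondence is defined over a finite Galois extension of `K` -/
  orbits : ∀ t : End X, ∃ N : Subgroup Γ, N.Normal ∧ N.FiniteIndex ∧ ∀ g ∈ N, g • t = t
  /-- homological triviality is Galois invariant -/
  smul_coh : ∀ (g : Γ) (t : End X), coh.map t = 0 → coh.map (g • t : End X) = 0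
  /-- `Q` is defined over `K` -/
  smul_through : ∀ (g : Γ) (t : End X), t ∈ Through X Q → (g • t : End X) ∈ Through X Q
  /-- the sums of correspondences of positive degree -/
  pos : AddSubgroup (End X)
  /-- the dimension plus one -/
  n : ℕ
  n_pos : 0 < n
  pos_prod : ∀ l : List (End X), l.length = n → (∀ t ∈ l, t ∈ pos) → l.prod = 0
  /-- the correspondences over `K` -/
  span : ∀ t : End X, (∀ g : Γ, g • t = t) → ∃ (q : ℚ) (x y : End X),
    x ∈ Through X Q ∧ y ∈ pos ∧ t = algebraMap ℚ (End X) q + x + y
  /-- any finite number of homologically trivial correspondences of `Q` generate a nilpotent ring -/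
  nilpotent : ∀ s : Finset (End Q), (∀ t ∈ s, coh.map (t : Q ⟶ Q) = 0) → ∃ m : ℕ,
    ∀ l : List (End Q), l.length = m → (∀ t ∈ l, t ∈ s) → l.prod = 0
  /-- a cohomology class of `X` that is killed by the correspondences from `X` to `Q` -/
  vec : coh.obj X
  vec_ne : vec ≠ 0
  kill : ∀ a : X ⟶ Q, (coh.map a).hom vec = 0

/-- (Big monodromy.)  The correspondences act on the class `F.vec` as rational numbers, and the
correspondences which act as zero are stable under the Galois group. -/
structure FewCycles.Scalar {V : Type u₁} [Category.{v₁} V] [Preadditive V] [Linear ℚ V]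
    {coh : V ⥤ ModuleCat.{0} ℚ} {X Q : V} {Γ : Type*} [Group Γ] [MulSemiringAction Γ (End X)]
    (F : FewCycles coh X Q Γ) : Prop where
  scalar : ∀ t : X ⟶ X, ∃ q : ℚ, (coh.map t).hom F.vec = q • F.vec
  smul : ∀ (g : Γ) (t : End X), (coh.map (t : X ⟶ X)).hom F.vec = 0 →
    (coh.map (g • t : End X)).hom F.vec = 0

/-- `C` is the category of Chow motives with rational coefficients over an algebraic extension `L` of
`K` (for example `L = K`, or the algebraic closure), with the Tate twists `⟦n⟧`, and `M` is the motive of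
`X` over `L`; `U` is the Galois group of `L`. -/
structure MotiveOver {V : Type u₁} [Category.{v₁} V] [Preadditive V] [Linear ℚ V]
    (coh : V ⥤ ModuleCat.{0} ℚ) (X : V) {Γ : Type*} [Group Γ] [MulSemiringAction Γ (End X)]
    (U : Subgroup Γ) {C : Type u} [Category.{v} C] [Preadditive C] [Linear ℚ C] [HasShift C ℤ]
    (M : C) where
  /-- extension of scalars from `L` to the algebraic closure, for correspondences of degree `n` -/
  ext : ∀ n : ℤ, (M ⟶ M⟦n⟧) →ₗ[ℚ] End X
  ext_id : ext 0 (ShiftedHom.mk₀ 0 rfl (𝟙 M)) = 1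
  ext_comp : ∀ {a b c : ℤ} (f : M ⟶ M⟦a⟧) (g : M ⟶ M⟦b⟧) (h : b + a = c),
    ext c (ShiftedHom.comp f g h) = ext a f * ext b g
  /-- Galois descent: the `U`-invariant correspondences are the finite sums of correspondences over
  `L`, in a unique way -/
  descent : ∀ t : End X, (∀ g ∈ U, g • t = t) →
    ∃ f : ∀ n : ℤ, M ⟶ M⟦n⟧, {n | f n ≠ 0}.Finite ∧ t = ∑ᶠ n, ext n (f n)
  invariant : ∀ g ∈ U, ∀ (n : ℤ) (f : M ⟶ M⟦n⟧), g • ext n f = ext n f
  unique : ∀ f : ∀ n : ℤ, M ⟶ M⟦n⟧, {n | f n ≠ 0}.Finite → ∑ᶠ n, ext n (f n) = 0 → f = 0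
  /-- correspondences of degree `n` shift the degrees of cohomology classes by `2 n` -/
  degree : ∀ n : ℤ, n ≠ 0 → ∀ f : M ⟶ M⟦n⟧, IsNilpotent (coh.map (ext n f : X ⟶ X)).hom

section

variable {V : Type u₁} [Category.{v₁} V] [Preadditive V] [Linear ℚ V]
  {coh : V ⥤ ModuleCat.{0} ℚ} {X : V} {Γ : Type*} [Group Γ] [MulSemiringAction Γ (End X)]
  {U : Subgroup Γ} {C : Type u} [Category.{v} C] [Preadditive C] [Linear ℚ C] [HasShift C ℤ]
  {M : C}

/-- The projector onto the summand `A k` of `M`, as a self-correspondence of `X`. -/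
noncomputable def MotiveOver.proj (E : MotiveOver coh X U M) {m : ℕ} {A : Fin m → C}
    [HasFiniteBiproducts C] (s : M ≅ ⨁ A) (k : Fin m) : End X :=
  E.ext 0 (ShiftedHom.mk₀ 0 rfl (s.hom ≫ biproduct.π A k ≫ biproduct.ι A k ≫ s.inv))

/-- The composition of `φ : M ⟶ M'` with the inverse of the isomorphism `e` in the orbit category, as
a self-correspondence of `X`. -/
noncomputable def MotiveOver.transfer (E : MotiveOver coh X U M) {M' : C} (e : OrbitEquiv M M')
    (φ : M ⟶ M') : End X := ∑ᶠ n, E.ext n (φ ≫ e.inv n)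

end

section

variable {C : Type u} [Category.{v} C] [Preadditive C]

/-- The direct sum of `n` copies of `A` is a direct summand of `M`. -/
def IsPower (n : ℕ) (A M : C) : Prop :=
  ∃ (i : Fin n → (A ⟶ M)) (r : Fin n → (M ⟶ A)), (∀ k, i k ≫ r k = 𝟙 A) ∧
    ∀ k l, k ≠ l → i k ≫ r l = 0

/-- The multiplicities of the twists of `A` in `M` are at most those in `M'`, or they are known to be
equal up to duality: for all twists outside one orbit `{A⟦n⟧, Θ (A⟦n⟧)}` of the duality `Θ`. -/
def Known [HasShift C ℤ] (Θ : Cᵒᵖ ≌ C) (A M M' : C) : Prop :=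
  (∀ (i : ℤ) (n : ℕ), IsPower n (A⟦i⟧) M → IsPower n (A⟦i⟧) M') ∨
    ∃ n : ℤ, ∀ i : ℤ, (∀ m : ℕ, IsPower m (A⟦i⟧) M ↔ IsPower m (A⟦i⟧) M') ∨ i = n ∨
      Nonempty (A⟦i⟧ ≅ Θ.functor.obj (Opposite.op (A⟦n⟧)))

end

end Pool.Agent.Lib.OrlovNil
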