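import Pool.Agent.Lib.OrlovNil.Defs
import Pool.Agent.Lib.NilDescent.SecOrbit
import Pool.Agent.Lib.NilDescent.Ambient
import Pool.Agent.Lib.OrlovCI.Defs
import Mathlib.LinearAlgebra.FiniteDimensional.Basic

/-!
# Nilpotence for varieties with few cycles over the function field of the base
-/

set_option autoImplicit false

open CategoryTheory CategoryTheory.Limits

namespace Pool.Agent.Lib.OrlovNil

open Pool.Agent.Lib.NilDescent

universe v₁ u₁

variable {V : Type u₁} [Category.{v₁} V] [Preadditive V] [Linear ℚ V]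
    {coh : V ⥤ ModuleCat.{0} ℚ} [coh.Additive] {X Q : V} {Γ : Type*} [Group Γ]
    [MulSemiringAction Γ (End X)]

/-- the action on cohomology -/
noncomputable def act (coh : V ⥤ ModuleCat.{0} ℚ) [coh.Additive] (X : V) :
    End X →+* Module.End ℚ (coh.obj X) where
  toFun t := (coh.map (t : X ⟶ X)).hom
  map_one' := by
    change (coh.map (𝟙 X)).hom = 1
    rw [coh.map_id]
    rfl
  map_mul' s t := by
    change (coh.map ((t : X ⟶ X) ≫ (s : X ⟶ X))).hom = _
    rw [coh.map_comp]
    rfl
  map_zero' := by
    rw [coh.map_zero]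
    rfl
  map_add' s t := by
    change (coh.map ((s : X ⟶ X) + (t : X ⟶ X))).hom = _
    rw [coh.map_add]
    rfl

omit [Linear ℚ V] in
lemma act_eq_zero {t : End X} : act coh X t = 0 ↔ coh.map (t : X ⟶ X) = 0 := by
  constructor
  · intro h
    exact ModuleCat.hom_ext h
  · intro h
    change (coh.map (t : X ⟶ X)).hom = 0
    rw [h]
    rfl

omit [Linear ℚ V] in
lemma through_comp {t : X ⟶ X} (ht : t ∈ Through X Q) (s : X ⟶ X) : t ≫ s ∈ Through X Q := by
  refine AddSubgroup.closure_induction (p := fun t _ => t ≫ s ∈ Through X Q) ?_ ?_ ?_ ?_ ht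
  · rintro _ ⟨a, b, rfl⟩
    exact AddSubgroup.subset_closure ⟨a, b ≫ s, Category.assoc _ _ _⟩
  · rw [Limits.zero_comp]; exact AddSubgroup.zero_mem _
  · intro x y _ _ hx hy
    rw [Preadditive.add_comp]; exact AddSubgroup.add_mem _ hx hy
  · intro x _ hx
    rw [Preadditive.neg_comp]; exact AddSubgroup.neg_mem _ hx

/-- the correspondences which factor through `Q` -/
def throughIdeal (X Q : V) : Ideal (End X) where
  carrier := (Through X Q : Set (X ⟶ X))
  add_mem' := fun {a b} (ha : a ∈ Through X Q) (hb : b ∈ Through X Q) =>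
    (Through X Q).add_mem ha hb
  zero_mem' := (Through X Q).zero_mem
  smul_mem' := fun c x (hx : x ∈ Through X Q) => through_comp hx (c : X ⟶ X)

omit [Linear ℚ V] in
lemma mem_throughIdeal {t : X ⟶ X} : (show End X from t) ∈ throughIdeal X Q ↔ t ∈ Through X Q :=
  Iff.rfl

instance : (throughIdeal X Q).IsTwoSided := ⟨fun b ha =>
  mem_throughIdeal.2 (NilDescent.comp_through (b : X ⟶ X) (mem_throughIdeal.1 ha))⟩

/-- the correspondences which kill the given class -/
def killIdeal (F : FewCycles coh X Q Γ) : Ideal (End X) where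
  carrier := {t | act coh X t F.vec = 0}
  add_mem' := by
    intro s t hs ht
    change act coh X (s + t) F.vec = 0
    rw [map_add, LinearMap.add_apply, (hs : act coh X s F.vec = 0), (ht : act coh X t F.vec = 0),
      add_zero]
  zero_mem' := by
    change act coh X 0 F.vec = 0
    rw [map_zero, LinearMap.zero_apply]
  smul_mem' := by
    intro c t ht
    change act coh X (c * t) F.vec = 0
    rw [map_mul, Module.End.mul_apply, (ht : act coh X t F.vec = 0), map_zero]

lemma act_through (F : FewCycles coh X Q Γ) {x : End X} (hx : x ∈ Through X Q) :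
    act coh X x F.vec = 0 := by
  have h1 : ∀ x ∈ Through X Q, (coh.map x).hom F.vec = 0 := by
    intro x hx
    refine AddSubgroup.closure_induction (p := fun x _ => (coh.map x).hom F.vec = 0)
      ?_ ?_ ?_ ?_ hx
    · rintro _ ⟨a, b, rfl⟩
      rw [coh.map_comp]
      change (coh.map b).hom ((coh.map a).hom F.vec) = 0
      rw [F.kill, map_zero]
    · rw [coh.map_zero]; rfl
    · intro x y _ _ hx hy
      rw [coh.map_add]
      change (coh.map x).hom F.vec + (coh.map y).hom F.vec = 0
      rw [hx, hy, add_zero]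
    · intro x _ hx
      rw [coh.map_neg]
      change - (coh.map x).hom F.vec = 0
      rw [hx, neg_zero]
  exact h1 x hx

omit [coh.Additive] in
lemma prod_replicate_pos (F : FewCycles coh X Q Γ) {y : End X} (hy : y ∈ F.pos) : y ^ F.n = 0 := by
  have h := F.pos_prod (List.replicate F.n y) List.length_replicate (by
    intro t ht
    rw [List.eq_of_mem_replicate ht]
    exact hy)
  rwa [List.prod_replicate] at h

/-- correspondences over `K` which kill the class -/
lemma exists_eq (F : FewCycles coh X Q Γ) {t : End X} (h : act coh X t F.vec = 0)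
    (hG : ∀ g : Γ, g • t = t) : ∃ x y : End X, x ∈ Through X Q ∧ y ∈ F.pos ∧ t = x + y := by
  obtain ⟨q, x, y, hx, hy, ht⟩ := F.span t hG
  have h2 : (act coh X y) F.vec = (-q) • F.vec := by
    have h3 : act coh X (algebraMap ℚ (End X) q) F.vec = q • F.vec := by
      have : ((act coh X).comp (algebraMap ℚ (End X))) q =
          (algebraMap ℚ (Module.End ℚ (coh.obj X))) q := by
        congr 1
        exact Subsingleton.elim _ _
      change ((act coh X).comp (algebraMap ℚ (End X))) q F.vec = _
      rw [this]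
      rfl
    rw [ht, map_add, map_add, LinearMap.add_apply, LinearMap.add_apply, h3, act_through F hx,
      add_zero] at h
    rw [neg_smul]
    exact (neg_eq_of_add_eq_zero_right h).symm
  have h3 : ∀ k : ℕ, ((act coh X y) ^ k) F.vec = (-q) ^ k • F.vec := by
    intro k
    induction k with
    | zero => rw [pow_zero, pow_zero, one_smul]; rfl
    | succ k ih =>
      rw [pow_succ', Module.End.mul_apply, ih, map_smul, h2, smul_smul, pow_succ]
  have h4 := h3 F.n
  rw [← map_pow, prod_replicate_pos F hy, map_zero] at h4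
  have h5 : (-q) ^ F.n = 0 := by
    rcases smul_eq_zero.1 h4.symm with h6 | h6
    · exact h6
    · exact absurd h6 F.vec_ne
  have h6 : q = 0 := neg_eq_zero.1 (pow_eq_zero_iff (Nat.pos_iff_ne_zero.1 F.n_pos) |>.1 h5)
  exact ⟨x, y, hx, hy, by rw [ht, h6, map_zero, zero_add]⟩

/-- products of `n` correspondences over `K` which kill the class factor through `Q` -/
lemma prod_mem_through (F : FewCycles coh X Q Γ) (l : List (End X)) (hl : l.length = F.n)
    (h : ∀ t ∈ l, act coh X t F.vec = 0 ∧ ∀ g : Γ, g • t = t) :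
    (l.prod : X ⟶ X) ∈ Through X Q := by
  have key : ∀ l : List (End X), (∀ t ∈ l, act coh X t F.vec = 0 ∧ ∀ g : Γ, g • t = t) →
      ∃ l' : List (End X), l'.length = l.length ∧ (∀ t ∈ l', t ∈ F.pos) ∧
        (l.prod - l'.prod : End X) ∈ Through X Q := by
    intro l
    induction l with
    | nil => exact fun _ => ⟨[], rfl, by simp, by simp⟩
    | cons t l ih =>
      intro h
      obtain ⟨l', h1, h2, h3⟩ := ih (fun s hs => h s (List.mem_cons_of_mem t hs))
      obtain ⟨ht, ht'⟩ := h t List.mem_cons_self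
      obtain ⟨x, y, hx, hy, rfl⟩ := exists_eq F ht ht'
      refine ⟨y :: l', by rw [List.length_cons, List.length_cons, h1], ?_, ?_⟩
      · intro s hs
        rcases List.mem_cons.1 hs with rfl | hs
        · exact hy
        · exact h2 s hs
      · rw [List.prod_cons, List.prod_cons]
        have h4 : (x + y) * l.prod - y * l'.prod = x * l.prod + y * (l.prod - l'.prod) := by
          noncomm_ring
        rw [h4]
        refine AddSubgroup.add_mem _ ?_ ?_
        · exact NilDescent.comp_through (l.prod : X ⟶ X) hx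
        · exact through_comp h3 (y : X ⟶ X)
  obtain ⟨l', h1, h2, h3⟩ := key l h
  rw [F.pos_prod l' (h1.trans hl) h2, sub_zero] at h3
  exact h3

omit [coh.Additive] in
/-- a homologically trivial correspondence which factors through `Q` is nilpotent -/
lemma isNilpotent_of_through (F : FewCycles coh X Q Γ) {t : X ⟶ X} (ht : coh.map t = 0)
    (h : t ∈ Through X Q) : IsNilpotent (show End X from t) := by
  classical
  obtain ⟨n, a, b, hab⟩ := (through_iff (t := t)).1 h
  let c : Fin n × Fin n → End Q := fun p => (show End Q from b p.1 ≫ t ≫ a p.2)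
  obtain ⟨m, hm⟩ := F.nilpotent (Finset.univ.image c) (by
    intro s hs
    obtain ⟨p, _, rfl⟩ := Finset.mem_image.1 hs
    change coh.map (b p.1 ≫ t ≫ a p.2) = 0
    rw [coh.map_comp, coh.map_comp, ht, zero_comp, comp_zero])
  -- `t (t t)^q` is a sum of compositions with a product of `q` of the `c p` in the middle
  have key : ∀ q : ℕ, ((show End X from t) ^ (2 * q + 1) : End X) ∈
      AddSubgroup.closure {s : X ⟶ X | ∃ (i j : Fin n) (l : List (End Q)), l.length = q ∧
        (∀ x ∈ l, x ∈ Finset.univ.image c) ∧ s = a i ≫ (l.prod : Q ⟶ Q) ≫ b j} := by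
    intro q
    induction q with
    | zero =>
      rw [Nat.mul_zero, zero_add, pow_one]
      change t ∈ _
      rw [hab]
      refine AddSubgroup.sum_mem _ (fun k _ => AddSubgroup.subset_closure ⟨k, k, [], rfl,
        by simp, ?_⟩)
      rw [List.prod_nil]
      change _ = a k ≫ 𝟙 Q ≫ b k
      rw [Category.id_comp]
    | succ q ih =>
      have h1 : (show End X from t) ^ (2 * (q + 1) + 1) =
          (show End X from t) * ((show End X from t) * (show End X from t) ^ (2 * q + 1)) := by
        rw [← pow_succ', ← pow_succ']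
        congr 1
      rw [h1]
      have h5 : ∀ s : X ⟶ X, s ∈ AddSubgroup.closure {s : X ⟶ X | ∃ (i j : Fin n)
          (l : List (End Q)), l.length = q ∧ (∀ x ∈ l, x ∈ Finset.univ.image c) ∧
          s = a i ≫ (l.prod : Q ⟶ Q) ≫ b j} → (s ≫ t) ≫ t ∈
          AddSubgroup.closure {s : X ⟶ X | ∃ (i j : Fin n) (l : List (End Q)), l.length = q + 1 ∧
          (∀ x ∈ l, x ∈ Finset.univ.image c) ∧ s = a i ≫ (l.prod : Q ⟶ Q) ≫ b j} := ?_
      · exact h5 _ ih
      intro s hs
      refine AddSubgroup.closure_induction (p := fun s _ => (s ≫ t) ≫ t ∈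
        AddSubgroup.closure {s : X ⟶ X | ∃ (i j : Fin n) (l : List (End Q)), l.length = q + 1 ∧
        (∀ x ∈ l, x ∈ Finset.univ.image c) ∧ s = a i ≫ (l.prod : Q ⟶ Q) ≫ b j}) ?_ ?_ ?_ ?_ hs
      · rintro _ ⟨i, j, l, hl, hl', rfl⟩
        have h2 : ((a i ≫ (l.prod : Q ⟶ Q) ≫ b j) ≫ t) ≫ t =
            ∑ k, a i ≫ ((show End Q from c (j, k)) * l.prod : End Q) ≫ b k := by
          have h3 : ((a i ≫ (l.prod : Q ⟶ Q) ≫ b j) ≫ t) ≫ t =
              ((a i ≫ (l.prod : Q ⟶ Q) ≫ b j) ≫ t) ≫ ∑ k, a k ≫ b k := by rw [← hab]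
          rw [h3, Preadditive.comp_sum]
          refine Finset.sum_congr rfl (fun k _ => ?_)
          change _ = a i ≫ ((l.prod : Q ⟶ Q) ≫ b j ≫ t ≫ a k) ≫ b k
          simp only [Category.assoc]
        rw [h2]
        refine AddSubgroup.sum_mem _ (fun k _ => AddSubgroup.subset_closure
          ⟨i, k, c (j, k) :: l, by rw [List.length_cons, hl], ?_, by rw [List.prod_cons]⟩)
        intro x hx
        rcases List.mem_cons.1 hx with rfl | hx
        · exact Finset.mem_image_of_mem _ (Finset.mem_univ _)
        · exact hl' x hx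
      · rw [zero_comp, zero_comp]; exact AddSubgroup.zero_mem _
      · intro x y _ _ hx hy
        rw [Preadditive.add_comp, Preadditive.add_comp]; exact AddSubgroup.add_mem _ hx hy
      · intro x _ hx
        rw [Preadditive.neg_comp, Preadditive.neg_comp]; exact AddSubgroup.neg_mem _ hx
  refine ⟨2 * m + 1, ?_⟩
  have h1 : ∀ s : X ⟶ X, s ∈ AddSubgroup.closure {s : X ⟶ X | ∃ (i j : Fin n)
      (l : List (End Q)), l.length = m ∧ (∀ x ∈ l, x ∈ Finset.univ.image c) ∧
      s = a i ≫ (l.prod : Q ⟶ Q) ≫ b j} → s = 0 := by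
    intro s hs
    refine AddSubgroup.closure_induction (p := fun s _ => s = 0) ?_ rfl ?_ ?_ hs
    · rintro _ ⟨i, j, l, hl, hl', rfl⟩
      rw [hm l hl hl']
      change a i ≫ (0 : Q ⟶ Q) ≫ b j = 0
      rw [zero_comp, comp_zero]
    · rintro _ _ _ _ rfl rfl
      exact add_zero 0
    · rintro _ _ rfl
      exact neg_zero
  exact h1 _ (key m)

/-- **Every homologically trivial correspondence is nilpotent.** -/
theorem homNil (F : FewCycles coh X Q Γ) : HomNil coh X := by
  intro t ht
  obtain ⟨U, hU, hU', hUt⟩ := F.orbits t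
  have h0 : ∀ t : End X, coh.map (t : X ⟶ X) = 0 → act coh X t F.vec = 0 := by
    intro t ht
    rw [act_eq_zero.2 ht]
    rfl
  obtain ⟨N, hN⟩ := exists_prod_mem_level (Γ := Γ) (I := throughIdeal X Q)
    (R := RingHom.ker (act coh X))
    (fun g t ht => mem_throughIdeal.2 (F.smul_through g t (mem_throughIdeal.1 ht)))
    (fun g r hr => act_eq_zero.2 (F.smul_coh g r (act_eq_zero.1 hr))) (n := F.n)
    (fun l hl h => mem_throughIdeal.2 (prod_mem_through F l hl (fun t ht =>
      ⟨h0 t (act_eq_zero.1 (h t ht).1), (h t ht).2⟩))) U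
  have h1 : t ^ N ∈ throughIdeal X Q := by
    have := hN (List.replicate N t) List.length_replicate (by
      intro x hx
      rw [List.eq_of_mem_replicate hx]
      exact ⟨act_eq_zero.2 ht, hUt⟩)
    rwa [List.prod_replicate] at this
  have h2 : t ^ (N + 1) ∈ throughIdeal X Q := by
    rw [pow_succ']
    exact (throughIdeal X Q).mul_mem_left _ h1
  have h3 : act coh X (t ^ (N + 1)) = 0 := by
    rw [map_pow, act_eq_zero.2 ht, pow_succ, mul_zero]
  obtain ⟨k, hk⟩ := isNilpotent_of_through F (act_eq_zero.1 h3) (mem_throughIdeal.1 h2)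
  refine ⟨(N + 1) * k, ?_⟩
  rw [pow_mul]
  exact hk

end Pool.Agent.Lib.OrlovNil
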