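import Pool.Agent.Lib.OrlovNil.Twist
import Pool.Agent.Lib.NilDescent.Final

/-!
# Morphisms which are bijective on cohomology are isomorphisms
-/

set_option autoImplicit false

open CategoryTheory CategoryTheory.Limits

namespace Pool.Agent.Lib.OrlovNil

open Pool.Agent.Lib.NilDescent Pool.Agent.Lib.MP_5c0b30_ag Pool.Agent.Lib.OrlovCurves
  Pool.Agent.Lib.OrlovCI

universe v u v₁ u₁

variable {V : Type u₁} [Category.{v₁} V] [Preadditive V] [Linear ℚ V]
    {coh : V ⥤ ModuleCat.{0} ℚ} [coh.Additive] {X Q : V} {Γ : Type*} [Group Γ]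
    [MulSemiringAction Γ (End X)]

/-- a correspondence which is injective on cohomology is invertible -/
lemma isUnit_of_injective (hX : HomNil coh X) [FiniteDimensional ℚ (coh.obj X)] {t : End X}
    (ht : Function.Injective (act coh X t)) : IsUnit t := by
  obtain ⟨q, hq⟩ := exists_poly_inv (act coh X t) ht
  set s : End X := Polynomial.aeval t q with hs
  have hcomm : Commute t s := by
    have h1 : Commute (Polynomial.X : Polynomial ℚ) q := Commute.all _ _
    have h2 := h1.map (Polynomial.aeval t)
    rwa [Polynomial.aeval_X] at h2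
  have h1 : act coh X (1 - t * s) = 0 := by
    have h3 : t * s = Polynomial.aeval t (Polynomial.X * q) := by
      rw [map_mul, Polynomial.aeval_X]
    have h4 : (act coh X).toRatAlgHom (Polynomial.aeval t (Polynomial.X * q)) = 1 := by
      rw [← Polynomial.aeval_algHom_apply]
      exact hq
    rw [map_sub, map_one, h3]
    change 1 - (act coh X).toRatAlgHom (Polynomial.aeval t (Polynomial.X * q)) = 0
    rw [h4, sub_self]
  have h2 : IsUnit (1 - (1 - t * s)) := (hX _ (act_eq_zero.1 h1)).isUnit_one_sub
  rw [sub_sub_cancel] at h2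
  exact (hcomm.isUnit_mul_iff.1 h2).1

variable {U : Subgroup Γ} {C : Type u} [Category.{v} C] [Preadditive C] [Linear ℚ C]
  [HasShift C ℤ] {M : C}

namespace MotiveOver

/-- all degrees together -/
noncomputable def total (E : MotiveOver coh X U M) : OrbitHom M M →+ End X :=
  DirectSum.toAddMonoid (fun n => (E.ext n).toAddMonoidHom)

omit [coh.Additive] in
lemma total_hof (E : MotiveOver coh X U M) (n : ℤ) (f : M ⟶ M⟦n⟧) :
    E.total (hof n f) = E.ext n f := by
  rw [total, DirectSum.toAddMonoid_of]
  rfl

omit [coh.Additive] in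
lemma total_id (E : MotiveOver coh X U M) : E.total (orbitId M) = 1 := by
  rw [orbitId, total_hof]
  exact E.ext_id

omit [coh.Additive] in
lemma total_apply (E : MotiveOver coh X U M) (a : OrbitHom M M) :
    E.total a = ∑ᶠ n, E.ext n (a n) := by
  classical
  have h1 : E.total a = ∑ n ∈ DFinsupp.support a, E.ext n (a n) := by
    conv_lhs => rw [← DirectSum.sum_support_of a]
    rw [map_sum]
    exact Finset.sum_congr rfl (fun n _ => E.total_hof n _)
  rw [h1]
  refine (finsum_eq_sum_of_support_subset _ (fun n hn => ?_)).symm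
  rw [Finset.mem_coe, DFinsupp.mem_support_iff]
  intro h
  apply hn
  change E.ext n (a n) = 0
  rw [h, map_zero]

omit [coh.Additive] in
lemma total_injective (E : MotiveOver coh X U M) {a : OrbitHom M M} (h : E.total a = 0) :
    a = 0 := by
  classical
  rw [total_apply] at h
  have h1 := E.unique (fun n => a n) ((DFinsupp.support a).finite_toSet.subset (fun n hn => by
    rw [Finset.mem_coe, DFinsupp.mem_support_iff]
    exact hn)) h
  exact orbitHom_ext (fun n => congrFun h1 n)

omit [coh.Additive] in
lemma exists_total (E : MotiveOver coh X U M) {t : End X} (h : ∀ g ∈ U, g • t = t) :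
    ∃ a : OrbitHom M M, E.total a = t := by
  obtain ⟨f, hf, rfl⟩ := E.descent t h
  refine ⟨ofFam f hf, ?_⟩
  rw [total_apply]
  simp only [ofFam_apply]

variable [∀ n : ℤ, (shiftFunctor C n).Additive]

omit [coh.Additive] in
lemma total_comp (E : MotiveOver coh X U M) (a b : OrbitHom M M) :
    E.total (orbitComp a b) = E.total a * E.total b := by
  induction a using DirectSum.induction_on with
  | zero => rw [zero_orbitComp, map_zero, zero_mul]
  | add a₁ a₂ h₁ h₂ => rw [add_orbitComp, map_add, h₁, h₂, map_add, add_mul]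
  | of n f =>
    induction b using DirectSum.induction_on with
    | zero => rw [orbitComp_zero, map_zero, mul_zero]
    | add b₁ b₂ h₁ h₂ => rw [orbitComp_add, map_add, h₁, h₂, map_add, mul_add]
    | of m g =>
      change E.total (orbitComp (hof n f) (hof m g)) = E.total (hof n f) * E.total (hof m g)
      rw [orbitComp_hof, total_hof, total_hof, total_hof]
      exact E.ext_comp f g rfl

omit [coh.Additive] [∀ n : ℤ, (shiftFunctor C n).Additive] in
lemma total_invariant (E : MotiveOver coh X U M) (a : OrbitHom M M) (g : Γ) (hg : g ∈ U) :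
    g • E.total a = E.total a := by
  induction a using DirectSum.induction_on with
  | zero => rw [map_zero, smul_zero]
  | add a₁ a₂ h₁ h₂ => rw [map_add, smul_add, h₁, h₂]
  | of n f =>
    change g • E.total (hof n f) = E.total (hof n f)
    rw [total_hof]
    exact E.invariant g hg n f

omit [coh.Additive] in
lemma transfer_eq (E : MotiveOver coh X U M) {M' : C} (e : OrbitEquiv M M') (φ : M ⟶ M') :
    E.transfer e φ = E.total (orbitComp (deg0 φ) e.toOrbitIso.inv) := by
  rw [total_apply, transfer]
  refine finsum_congr (fun n => ?_)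
  rw [deg0_orbitComp_apply, e.toOrbitIso_inv]

/-- a morphism of `C` which is invertible in the orbit category is invertible -/
lemma isIso_of_orbit {M M' : C} (φ : M ⟶ M') (ψ : OrbitHom M' M)
    (h1 : orbitComp (deg0 φ) ψ = orbitId M) (h2 : orbitComp ψ (deg0 φ) = orbitId M') :
    IsIso φ := by
  have h3 : φ ≫ ψ 0 = (z0 M).inv := by
    rw [← deg0_orbitComp_apply, h1, orbitId, DirectSum.of_eq_same, mk₀_eq, Category.id_comp]
  have h4 : ψ 0 ≫ φ⟦(0 : ℤ)⟧' = (z0 M').inv := by
    rw [← orbitComp_deg0_apply, h2, orbitId, DirectSum.of_eq_same, mk₀_eq, Category.id_comp]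
  refine ⟨ψ 0 ≫ (z0 M).hom, ?_, ?_⟩
  · rw [← Category.assoc, h3, Iso.inv_hom_id]
  · have h5 : φ⟦(0 : ℤ)⟧' ≫ (z0 M').hom = (z0 M).hom ≫ φ :=
      (shiftFunctorZero C ℤ).hom.naturality φ
    rw [Category.assoc, ← h5, ← Category.assoc, h4, Iso.inv_hom_id]

/-- **Every morphism `M ⟶ M'` which is injective on cohomology is an isomorphism.** -/
theorem isIso_of_injective (E : MotiveOver coh X U M) (hX : HomNil coh X)
    [FiniteDimensional ℚ (coh.obj X)] {M' : C} (e : OrbitEquiv M M') (φ : M ⟶ M')
    (h : Function.Injective (coh.map (E.transfer e φ : X ⟶ X)).hom) : IsIso φ := by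
  set inv := e.toOrbitIso.inv with hinv
  set hom := e.toOrbitIso.hom with hhom
  set τ := orbitComp (deg0 φ) inv with hτ
  obtain ⟨a, ha⟩ := isUnit_of_injective hX (t := E.transfer e φ) h
  rw [transfer_eq] at ha
  -- the inverse is invariant
  have hu : ∀ g ∈ U, g • ((a⁻¹ : (End X)ˣ) : End X) = ((a⁻¹ : (End X)ˣ) : End X) := by
    intro g hg
    refine Family.inv_invariant (t := (a : End X)) g ?_ (Units.mul_inv a) (Units.inv_mul a)
    rw [ha]
    exact E.total_invariant _ g hg
  obtain ⟨w, hw⟩ := E.exists_total hu
  have h1 : orbitComp τ w = orbitId M := by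
    have h2 : E.total (orbitComp τ w - orbitId M) = 0 := by
      rw [map_sub, E.total_comp, E.total_id, hw, ← ha, Units.mul_inv, sub_self]
    exact sub_eq_zero.1 (E.total_injective h2)
  have h2 : orbitComp w τ = orbitId M := by
    have h3 : E.total (orbitComp w τ - orbitId M) = 0 := by
      rw [map_sub, E.total_comp, E.total_id, hw, ← ha, Units.inv_mul, sub_self]
    exact sub_eq_zero.1 (E.total_injective h3)
  -- `τ = φ ∘ inv`, so `φ` is invertible in the orbit category with inverse `inv ∘ w`
  refine isIso_of_orbit φ (orbitComp inv w) ?_ ?_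
  · rw [← orbitComp_assoc]
    exact h1
  · have h4 : orbitComp (orbitComp inv w) (deg0 φ) =
        orbitComp (orbitComp (orbitComp inv w) (deg0 φ)) (orbitComp inv hom) := by
      rw [e.toOrbitIso.inv_hom_id, orbitComp_id]
    have h5 : orbitComp (orbitComp (orbitComp inv w) (deg0 φ)) (orbitComp inv hom) =
        orbitComp inv (orbitComp (orbitComp w τ) hom) := by
      rw [hτ]
      simp only [orbitComp_assoc]
    rw [h4, h5, h2, orbitId_comp]
    exact e.toOrbitIso.inv_hom_id

end MotiveOver

end Pool.Agent.Lib.OrlovNil
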