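import Pool.Agent.Lib.OrlovNil.Twist
import Pool.Agent.Lib.OrlovNil.Defs

/-!
# Comparison of multiplicities
-/

set_option autoImplicit false

open CategoryTheory CategoryTheory.Limits ZeroObject

namespace Pool.Agent.Lib.OrlovNil

open Pool.Agent.Lib.MP_5c0b30_ag Pool.Agent.Lib.OrlovCurves Pool.Agent.Lib.OrlovCI

universe v u

variable {C : Type u} [Category.{v} C] [HasShift C ℤ] [Preadditive C]
  [∀ n : ℤ, (shiftFunctor C n).Additive]
  [HasFiniteBiproducts C] [HasBinaryBiproducts C] [IsIdempotentComplete C] [Linear ℚ C]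

omit [HasFiniteBiproducts C] [HasBinaryBiproducts C] [IsIdempotentComplete C] [Linear ℚ C]
  [∀ n : ℤ, (shiftFunctor C n).Additive] in
lemma known_iff {Θ : Cᵒᵖ ≌ C} {A M M' : C} : Known Θ A M M' ↔ KnownMult Θ A M M' := Iff.rfl

theorem iso_of_known {m : ℕ} {A : Fin m → C} (hloc : ∀ k, IsLocalRing (End (A k)))
    (hfree : ∀ k, ∀ n : ℤ, n ≠ 0 → IsEmpty (A k ≅ (A k)⟦n⟧)) {M M' : C} (hM : M ≅ ⨁ A)
    (e : OrbitEquiv M M') (Θ : Cᵒᵖ ≌ C)
    (hΘ : ∀ (X : C) (n : ℤ), Nonempty (Θ.functor.obj (Opposite.op (X⟦n⟧)) ≅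
      (Θ.functor.obj (Opposite.op X))⟦-n⟧))
    (hΘM : Nonempty (Θ.functor.obj (Opposite.op M) ≅ M))
    (hΘM' : Nonempty (Θ.functor.obj (Opposite.op M') ≅ M'))
    (hk : ∀ k, Known Θ (A k) M M' ∨ (Nonempty (Θ.functor.obj (Opposite.op (A k)) ≅ A k) ∧
      ∀ l, l ≠ k → ∀ i : ℤ, IsEmpty (A l ≅ (A k)⟦i⟧))) : Nonempty (M ≅ M') := by
  classical
  have hP := isPieces_twists hloc hfree
  have hA : ∀ k, Twists A (A k) := fun k => ⟨k, TwistIso.refl _⟩
  let d : Dec M (0 : C) A := decOfBiproduct hM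
  have hz : 𝟙 (0 : C) = 0 := HasZeroObject.from_zero_ext _ _
  have h1 := one_mem_through_orbit hP.shift e (one_mem_through hz hA d)
  obtain ⟨μ', _, E', Z', hZ', hE', ⟨d'⟩⟩ := exists_dec (fun A hA => hP.loc hA) h1
  have key : ∀ (k : Fin m) (i : ℤ), Nat.card {l // Nonempty ((A k)⟦i⟧ ≅ A l)} =
      Nat.card {l // Nonempty ((A k)⟦i⟧ ≅ E' l)} := by
    intro k i
    rcases hk k with h | ⟨⟨s⟩, hu⟩
    · exact card_eq_of_knownMult hP (hA k) e hz hZ' hA hE' d d' Θ hΘM hΘM' (known_iff.1 h) i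
    · refine card_eq_of_one hP (hA k) e hz hZ' hA hE' d d' Θ hΘM' ?_ ?_ ?_ i
      · intro j
        obtain ⟨x⟩ := hΘ (A k) j
        exact ⟨(x ≪≫ (shiftFunctor C (-j)).mapIso s).symm⟩
      · rw [Nat.card_eq_one_iff_unique]
        refine ⟨⟨?_⟩, ⟨⟨k, ⟨(shiftFunctorZero C ℤ).app (A k)⟩⟩⟩⟩
        rintro ⟨l, ⟨b⟩⟩ ⟨l', ⟨b'⟩⟩
        have h2 : l = k := by
          by_contra h3
          exact (hu l h3 0).false b.symm
        have h3 : l' = k := by
          by_contra h4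
          exact (hu l' h4 0).false b'.symm
        exact Subtype.ext (h2.trans h3.symm)
      · intro j hj
        have : IsEmpty {l // Nonempty ((A k)⟦j⟧ ≅ A l)} := by
          constructor
          rintro ⟨l, ⟨b⟩⟩
          by_cases h2 : l = k
          · subst h2
            exact (hfree l j hj).false b.symm
          · exact (hu l h2 j).false b.symm
        exact Nat.card_of_isEmpty
  have h2 : ∀ D, Twists A D → Nat.card {k // Nonempty (D ≅ A k)} =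
      Nat.card {k // Nonempty (D ≅ E' k)} := by
    rintro D ⟨k, i, ⟨a⟩⟩
    have h4 : ∀ {ν : Type} (F : ν → C), Nat.card {k // Nonempty (D ≅ F k)} =
        Nat.card {l // Nonempty ((A k)⟦i⟧ ≅ F l)} := by
      intro ν F
      refine Nat.card_congr (Equiv.subtypeEquivRight (fun k => ?_))
      exact ⟨fun ⟨b⟩ => ⟨a.symm ≪≫ b⟩, fun ⟨b⟩ => ⟨a ≪≫ b⟩⟩
    rw [h4, h4]
    exact key k i
  obtain ⟨f⟩ := iso_of_card A E' (card_eq_all hA hE' h2)
  have z : (0 : C) ≅ Z' := by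
    refine ⟨0, 0, HasZeroObject.from_zero_ext _ _, ?_⟩
    rw [zero_comp, hZ']
  exact ⟨d.toIso ≪≫ biprod.mapIso z f ≪≫ d'.toIso.symm⟩

end Pool.Agent.Lib.OrlovNil
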