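import Pool.Agent.Lib.OrlovNil.Few
import Pool.Agent.Lib.OrlovNil.Alg
import Pool.Agent.Lib.OrlovCI.Local
import Mathlib.RingTheory.Idempotents
import Mathlib.LinearAlgebra.Dimension.Finite
import Mathlib.LinearAlgebra.FiniteDimensional.Basic

/-!
# The theorem of Krull and Schmidt for motives with nilpotent homologically trivial correspondences
-/

set_option autoImplicit false

open CategoryTheory CategoryTheory.Limits

namespace Pool.Agent.Lib.OrlovNil

open Pool.Agent.Lib.NilDescent Pool.Agent.Lib.MP_5c0b30_ag Pool.Agent.Lib.OrlovCurves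
  Pool.Agent.Lib.OrlovCI

universe v u v₁ u₁

variable {V : Type u₁} [Category.{v₁} V] [Preadditive V] [Linear ℚ V]
    {coh : V ⥤ ModuleCat.{0} ℚ} [coh.Additive] {X Q : V} {Γ : Type*} [Group Γ]
    [MulSemiringAction Γ (End X)]

/-- every self-correspondence is a root of a polynomial -/
lemma exists_poly (hX : HomNil coh X) [FiniteDimensional ℚ (coh.obj X)] (t : End X) :
    ∃ p : Polynomial ℚ, p ≠ 0 ∧ Polynomial.aeval t p = 0 := by
  set φ := (act coh X).toRatAlgHom with hφ
  set p := minpoly ℚ (φ t) with hp
  have h1 : φ (Polynomial.aeval t p) = 0 := by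
    rw [← Polynomial.aeval_algHom_apply]
    exact minpoly.aeval ℚ _
  obtain ⟨N, hN⟩ := hX (Polynomial.aeval t p) (act_eq_zero.1 h1)
  refine ⟨p ^ N, pow_ne_zero _ (minpoly.ne_zero (Algebra.IsIntegral.isIntegral _)), ?_⟩
  rw [map_pow]
  exact hN

variable {U : Subgroup Γ} {C : Type u} [Category.{v} C] [Preadditive C] [Linear ℚ C]
  [HasShift C ℤ] {M : C}

namespace MotiveOver

/-- the endomorphisms of `M` as correspondences -/
noncomputable def toCorr (E : MotiveOver coh X U M) : (M ⟶ M) →ₗ[ℚ] End X where
  toFun f := E.ext 0 (ShiftedHom.mk₀ 0 rfl f)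
  map_add' f g := by rw [mk₀_eq, mk₀_eq, mk₀_eq, Preadditive.add_comp, map_add]
  map_smul' q f := by rw [mk₀_eq, mk₀_eq, Linear.smul_comp, map_smul]; rfl

omit [coh.Additive] in
lemma toCorr_id (E : MotiveOver coh X U M) : E.toCorr (𝟙 M) = 1 := E.ext_id

omit [coh.Additive] in
lemma toCorr_comp (E : MotiveOver coh X U M) (f g : M ⟶ M) :
    E.toCorr (f ≫ g) = E.toCorr f * E.toCorr g := by
  change E.ext 0 _ = E.ext 0 _ * E.ext 0 _
  rw [← E.ext_comp (c := 0) _ _ (add_zero 0), ShiftedHom.mk₀_comp, mk₀_eq, mk₀_eq, Category.assoc]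

omit [coh.Additive] in
lemma ext_injective (E : MotiveOver coh X U M) (n : ℤ) (f : M ⟶ M⟦n⟧) (h : E.ext n f = 0) :
    f = 0 := by
  classical
  let g : ∀ k : ℤ, M ⟶ M⟦k⟧ := fun k => if h : n = k then f ≫ eqToHom (by rw [h]) else 0
  have hg : ∀ k, k ≠ n → g k = 0 := fun k hk => dif_neg (Ne.symm hk)
  have hgn : g n = f := by
    change (if h : n = n then f ≫ eqToHom _ else 0) = f
    rw [dif_pos rfl, eqToHom_refl, Category.comp_id]
  have h1 := E.unique g ((Set.finite_singleton n).subset (fun k hk => by
    by_contra h1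
    exact hk (hg k h1))) (by
    rw [finsum_eq_single _ n (fun k hk => by rw [hg k hk, map_zero]), hgn, h])
  rw [← hgn, h1]
  rfl

omit [coh.Additive] in
lemma toCorr_injective (E : MotiveOver coh X U M) {f : M ⟶ M} (h : E.toCorr f = 0) : f = 0 := by
  have h1 := E.ext_injective 0 _ h
  rw [mk₀_eq] at h1
  rw [← Category.comp_id f, ← (z0 M).inv_hom_id, ← Category.assoc, h1, zero_comp]

omit [coh.Additive] in
lemma toCorr_pow (E : MotiveOver coh X U M) (f : End M) (k : ℕ) :
    E.toCorr (f ^ k : End M) = E.toCorr f ^ k := by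
  induction k with
  | zero => rw [pow_zero, pow_zero]; exact E.toCorr_id
  | succ k ih =>
    rw [pow_succ (E.toCorr f), pow_succ' f, ← ih, ← E.toCorr_comp]
    rfl

omit [coh.Additive] in
lemma toCorr_aeval (E : MotiveOver coh X U M) (f : End M) (p : Polynomial ℚ) :
    E.toCorr (Polynomial.aeval f p : End M) = Polynomial.aeval (E.toCorr f) p := by
  rw [Polynomial.aeval_eq_sum_range, Polynomial.aeval_eq_sum_range]
  have h1 : E.toCorr (∑ i ∈ Finset.range (p.natDegree + 1), p.coeff i • f ^ i : End M) =
      ∑ i ∈ Finset.range (p.natDegree + 1), E.toCorr (p.coeff i • f ^ i : End M) :=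
    map_sum E.toCorr _ _
  rw [h1]
  refine Finset.sum_congr rfl (fun i _ => ?_)
  rw [← E.toCorr_pow]
  exact map_smul E.toCorr (p.coeff i) (f ^ i : End M)

lemma exists_poly (E : MotiveOver coh X U M) (hX : HomNil coh X)
    [FiniteDimensional ℚ (coh.obj X)] (f : End M) :
    ∃ p : Polynomial ℚ, p ≠ 0 ∧ Polynomial.aeval f p = 0 := by
  obtain ⟨p, hp, h⟩ := OrlovNil.exists_poly hX (E.toCorr f)
  rw [← E.toCorr_aeval] at h
  exact ⟨p, hp, E.toCorr_injective h⟩

/-- orthogonal nonzero idempotents -/
lemma card_le (E : MotiveOver coh X U M) (hX : HomNil coh X)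
    [FiniteDimensional ℚ (coh.obj X)] {ι : Type} [Fintype ι] (e : ι → End M)
    (he : OrthogonalIdempotents e) (h0 : ∀ i, e i ≠ 0) :
    Fintype.card ι ≤ Module.finrank ℚ (coh.obj X) := by
  classical
  have hidem : ∀ i, E.toCorr (e i) * E.toCorr (e i) = E.toCorr (e i) := fun i => by
    rw [← E.toCorr_comp]
    congr 1
    exact he.idem i
  have horth : ∀ i j, i ≠ j → E.toCorr (e i) * E.toCorr (e j) = 0 := fun i j hij => by
    rw [← E.toCorr_comp]
    have h1 : (e i ≫ e j : M ⟶ M) = 0 := he.ortho (i := j) (j := i) hij.symm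
    rw [h1, map_zero]
  have hne : ∀ i, act coh X (E.toCorr (e i)) ≠ 0 := by
    intro i h1
    obtain ⟨N, hN⟩ := hX _ (act_eq_zero.1 h1)
    have h2 : ∀ k : ℕ, E.toCorr (e i) ^ (k + 1) = E.toCorr (e i) := by
      intro k
      induction k with
      | zero => rw [zero_add, pow_one]
      | succ k ih => rw [pow_succ, ih, hidem]
    have h3 : E.toCorr (e i) = 0 := by
      rw [← h2 N, pow_succ, hN, zero_mul]
    exact h0 i (E.toCorr_injective h3)
  have hv : ∀ i, ∃ v, act coh X (E.toCorr (e i)) v ≠ 0 := by
    intro i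
    by_contra h1
    push Not at h1
    exact hne i (LinearMap.ext h1)
  choose v hv using hv
  have hlin : LinearIndependent ℚ (fun i => act coh X (E.toCorr (e i)) (v i)) := by
    rw [Fintype.linearIndependent_iff]
    intro c hc j
    have h1 := congrArg (act coh X (E.toCorr (e j))) hc
    rw [map_sum, map_zero, Finset.sum_eq_single j] at h1
    · rw [map_smul, ← Module.End.mul_apply, ← map_mul, hidem] at h1
      rcases smul_eq_zero.1 h1 with h2 | h2
      · exact h2
      · exact absurd h2 (hv j)
    · intro i _ hij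
      rw [map_smul, ← Module.End.mul_apply, ← map_mul, horth j i hij.symm, map_zero,
        LinearMap.zero_apply, smul_zero]
    · intro h2
      exact absurd (Finset.mem_univ j) h2
  exact hlin.fintype_card_le_finrank

/-- a complete family of primitive orthogonal idempotents -/
lemma exists_primitive (E : MotiveOver coh X U M) (hX : HomNil coh X)
    [FiniteDimensional ℚ (coh.obj X)] : ∃ (k : ℕ) (e : Fin k → End M),
      CompleteOrthogonalIdempotents e ∧ (∀ i, e i ≠ 0) ∧
      ∀ (i : Fin k) (a : End M), a * a = a → e i * a = a → a * e i = a → a = 0 ∨ a = e i := by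
  classical
  let P : ℕ → Prop := fun k => ∃ (ι : Type) (_ : Fintype ι) (e : ι → End M),
    Fintype.card ι = k ∧ CompleteOrthogonalIdempotents e ∧ ∀ i, e i ≠ 0
  have hbound : ∀ k, P k → k ≤ Module.finrank ℚ (coh.obj X) := by
    rintro k ⟨ι, _, e, rfl, he, h0⟩
    exact E.card_le hX e he.toOrthogonalIdempotents h0
  have hex : ∃ k, P k := by
    by_cases h : (1 : End M) = 0
    · refine ⟨0, Empty, inferInstance, fun i => i.elim, rfl, ?_, fun i => i.elim⟩
      exact ⟨⟨fun i => i.elim, fun i => i.elim⟩, by rw [Fintype.sum_empty, h]⟩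
    · refine ⟨1, Unit, inferInstance, fun _ => 1, rfl, ?_, fun _ => h⟩
      refine ⟨⟨fun _ => one_mul 1, fun i j hij => absurd (Subsingleton.elim i j) hij⟩, ?_⟩
      rw [Fintype.sum_unique]
  obtain ⟨k0, hk0⟩ := hex
  set k := Nat.findGreatest P (Module.finrank ℚ (coh.obj X)) with hk
  have hPk : P k := Nat.findGreatest_spec (hbound k0 hk0) hk0
  have hmax : ∀ m, P m → m ≤ k := fun m hm => Nat.le_findGreatest (hbound m hm) hm
  obtain ⟨ι, _, e, hcard, he, h0⟩ := hPk
  have hprim : ∀ (i : ι) (a : End M), a * a = a → e i * a = a → a * e i = a →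
      a = 0 ∨ a = e i := by
    intro i a ha h1 h2
    by_contra h3
    push Not at h3
    obtain ⟨h3, h4⟩ := h3
    let e' : Option ι → End M := fun j => j.elim a (fun j => if j = i then e i - a else e j)
    have hn : e' none = a := rfl
    have hs : ∀ j, e' (some j) = if j = i then e i - a else e j := fun j => rfl
    have haj : ∀ j, j ≠ i → a * e j = 0 := fun j hj => by
      rw [← h2, mul_assoc, he.ortho hj.symm, mul_zero]
    have hja : ∀ j, j ≠ i → e j * a = 0 := fun j hj => by
      rw [← h1, ← mul_assoc, he.ortho hj, zero_mul]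
    have h5 : P (k + 1) := by
      refine ⟨Option ι, inferInstance, e', by rw [Fintype.card_option, hcard], ⟨⟨?_, ?_⟩, ?_⟩, ?_⟩
      · rintro (_ | j)
        · exact ha
        · rw [hs]
          split_ifs with hj
          · change (e i - a) * (e i - a) = e i - a
            rw [mul_sub, sub_mul, sub_mul, (he.idem i : e i * e i = e i), h1, h2, ha]
            abel
          · exact he.idem j
      · rintro (_ | j) (_ | l) hjl
        · exact absurd rfl hjl
        · change e' none * e' (some l) = 0
          rw [hn, hs]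
          split_ifs with hl
          · rw [mul_sub, h2, ha, sub_self]
          · exact haj l hl
        · change e' (some j) * e' none = 0
          rw [hn, hs]
          split_ifs with hj
          · rw [sub_mul, h1, ha, sub_self]
          · exact hja j hj
        · change e' (some j) * e' (some l) = 0
          have hjl' : j ≠ l := fun h => hjl (by rw [h])
          rw [hs, hs]
          split_ifs with hj hl hl
          · exact absurd (hj.trans hl.symm) hjl'
          · rw [sub_mul, haj l hl, sub_zero]
            exact he.ortho (fun h => hl h.symm)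
          · rw [mul_sub, hja j hj, sub_zero]
            exact he.ortho hj
          · exact he.ortho hjl'
      · rw [Fintype.sum_option, hn]
        have h6 : ∑ j, e' (some j) = ∑ j, e j - a := by
          have h7 : ∀ j, e' (some j) = e j - if j = i then a else 0 := fun j => by
            rw [hs]
            split_ifs with hj
            · rw [hj]
            · rw [sub_zero]
          simp only [h7, Finset.sum_sub_distrib, Finset.sum_ite_eq', Finset.mem_univ, if_true]
        rw [h6, he.complete]
        abel
      · rintro (_ | j)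
        · exact h3
        · rw [hs]
          split_ifs with hj
          · intro h6
            exact h4 (sub_eq_zero.1 h6).symm
          · exact h0 j
    have := hmax _ h5
    omega
  let φ : Fin k ≃ ι := (Fintype.equivFinOfCardEq hcard).symm
  refine ⟨k, fun i => e (φ i), ⟨⟨fun i => he.idem _, fun i j hij =>
    he.ortho (fun h => hij (φ.injective h))⟩, ?_⟩, fun i => h0 _, fun i => hprim (φ i)⟩
  rw [← he.complete]
  exact Fintype.sum_equiv φ _ _ (fun _ => rfl)

end MotiveOver

end Pool.Agent.Lib.OrlovNil
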