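import Pool.Agent.Lib.OrlovNil.Krull
import Pool.Agent.Lib.OrlovCI.Main

/-!
# Decomposition into objects with local endomorphism rings
-/

set_option autoImplicit false

open CategoryTheory CategoryTheory.Limits ZeroObject

namespace Pool.Agent.Lib.OrlovNil

open Pool.Agent.Lib.NilDescent Pool.Agent.Lib.MP_5c0b30_ag Pool.Agent.Lib.OrlovCurves
  Pool.Agent.Lib.OrlovCI

universe v u v₁ u₁

section

variable {C : Type u} [Category.{v} C] [Preadditive C] [Linear ℚ C]

/-- the endomorphism of `M` given by an endomorphism of a direct summand -/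
def sandwich {A M : C} (i : A ⟶ M) (r : M ⟶ A) (g : End A) : End M := r ≫ g ≫ i

lemma comp_aeval_comp {A M : C} (i : A ⟶ M) (r : M ⟶ A) (h : i ≫ r = 𝟙 A) (g : End A)
    (p : Polynomial ℚ) :
    r ≫ (Polynomial.aeval g p : End A) ≫ i =
      (r ≫ i) ≫ (Polynomial.aeval (sandwich i r g) p : End M) := by
  have hpow : ∀ k : ℕ, r ≫ (g ^ k : End A) ≫ i = (r ≫ i) ≫ ((sandwich i r g) ^ k : End M) := by
    intro k
    induction k with
    | zero =>
      rw [pow_zero, pow_zero]
      change r ≫ 𝟙 A ≫ i = (r ≫ i) ≫ 𝟙 M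
      rw [Category.id_comp, Category.comp_id]
    | succ k ih =>
      rw [pow_succ', pow_succ']
      change r ≫ ((g ^ k : End A) ≫ g) ≫ i =
        (r ≫ i) ≫ ((sandwich i r g) ^ k : End M) ≫ (r ≫ g ≫ i)
      rw [← Category.assoc (r ≫ i), ← ih]
      simp only [Category.assoc]
      rw [← Category.assoc i r, h, Category.id_comp]
  rw [Polynomial.aeval_eq_sum_range, Polynomial.aeval_eq_sum_range]
  have h1 : r ≫ (∑ k ∈ Finset.range (p.natDegree + 1), p.coeff k • g ^ k : End A) ≫ i =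
      ∑ k ∈ Finset.range (p.natDegree + 1), p.coeff k • (r ≫ (g ^ k : End A) ≫ i) := by
    have h2 : (∑ k ∈ Finset.range (p.natDegree + 1), p.coeff k • g ^ k : End A) =
        ∑ k ∈ Finset.range (p.natDegree + 1), (p.coeff k • (g ^ k : End A) : A ⟶ A) := rfl
    rw [h2, Preadditive.sum_comp, Preadditive.comp_sum]
    refine Finset.sum_congr rfl (fun k _ => ?_)
    rw [Linear.smul_comp, Linear.comp_smul]
  have h3 : (r ≫ i) ≫ (∑ k ∈ Finset.range (p.natDegree + 1),
      p.coeff k • (sandwich i r g) ^ k : End M) =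
      ∑ k ∈ Finset.range (p.natDegree + 1), p.coeff k •
        ((r ≫ i) ≫ ((sandwich i r g) ^ k : End M)) := by
    have h2 : (∑ k ∈ Finset.range (p.natDegree + 1), p.coeff k • (sandwich i r g) ^ k : End M) =
        ∑ k ∈ Finset.range (p.natDegree + 1),
          (p.coeff k • ((sandwich i r g) ^ k : End M) : M ⟶ M) := rfl
    rw [h2, Preadditive.comp_sum]
    refine Finset.sum_congr rfl (fun k _ => ?_)
    rw [Linear.comp_smul]
  rw [h1, h3]
  exact Finset.sum_congr rfl (fun k _ => by rw [hpow])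

/-- the decomposition given by an isomorphism -/
noncomputable def decOfBiproduct [HasFiniteBiproducts C] {M : C} {m : ℕ} {B : Fin m → C}
    (e : M ≅ ⨁ B) : Dec M (0 : C) B where
  i0 := 0
  r0 := 0
  i k := biproduct.ι B k ≫ e.inv
  r k := e.hom ≫ biproduct.π B k
  h0 := HasZeroObject.from_zero_ext _ _
  diag k := by simp
  off k l hkl := by
    rw [Category.assoc, e.inv_hom_id_assoc, biproduct.ι_π_ne B hkl]
  off0 k := zero_comp
  off1 k := comp_zero
  total := by
    rw [zero_comp, zero_add]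
    have h2 := biproduct.total (f := B)
    calc _ = e.hom ≫ (∑ k, biproduct.π B k ≫ biproduct.ι B k) ≫ e.inv := by
          simp only [Preadditive.sum_comp, Preadditive.comp_sum, Category.assoc]
      _ = 𝟙 M := by rw [h2, Category.id_comp, e.hom_inv_id]

end

variable {V : Type u₁} [Category.{v₁} V] [Preadditive V] [Linear ℚ V]
    {coh : V ⥤ ModuleCat.{0} ℚ} [coh.Additive] {X Q : V} {Γ : Type*} [Group Γ]
    [MulSemiringAction Γ (End X)]
    {U : Subgroup Γ} {C : Type u} [Category.{v} C] [Preadditive C] [Linear ℚ C]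
    [HasShift C ℤ] {M : C}

namespace MotiveOver

lemma id_ne_zero {A M : C} (i : A ⟶ M) (r : M ⟶ A) (h0 : (r ≫ i : M ⟶ M) ≠ 0) : 𝟙 A ≠ 0 := by
  intro h
  apply h0
  rw [← Category.id_comp i, h, zero_comp, comp_zero]

lemma isLocalRing_end (E : MotiveOver coh X U M) (hX : HomNil coh X)
    [FiniteDimensional ℚ (coh.obj X)] {A : C} (i : A ⟶ M) (r : M ⟶ A) (h : i ≫ r = 𝟙 A)
    (h0 : (r ≫ i : M ⟶ M) ≠ 0) (hprim : ∀ a : End M, a * a = a → (show End M from r ≫ i) * a = a →
      a * (show End M from r ≫ i) = a → a = 0 ∨ a = (show End M from r ≫ i)) :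
    IsLocalRing (End A) := by
  have hn : Nontrivial (End A) := ⟨⟨𝟙 A, 0, id_ne_zero i r h0⟩⟩
  refine isLocalRing_of_algebraic ?_ ?_
  · intro g hg
    have hg' : (g ≫ g : A ⟶ A) = g := hg
    have h1 := hprim (show End M from r ≫ g ≫ i) (by
      change (r ≫ g ≫ i) ≫ (r ≫ g ≫ i) = r ≫ g ≫ i
      simp only [Category.assoc]
      rw [← Category.assoc i r, h, Category.id_comp, ← Category.assoc g g, hg']) (by
      change (r ≫ g ≫ i) ≫ (r ≫ i) = r ≫ g ≫ i
      simp only [Category.assoc]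
      rw [← Category.assoc i r, h, Category.id_comp]) (by
      change (r ≫ i) ≫ (r ≫ g ≫ i) = r ≫ g ≫ i
      simp only [Category.assoc]
      rw [← Category.assoc i r, h, Category.id_comp])
    have h2 : g = i ≫ (r ≫ g ≫ i) ≫ r := by
      simp only [Category.assoc]
      rw [h, Category.comp_id, ← Category.assoc, h, Category.id_comp]
    rcases h1 with h1 | h1
    · left
      have h3 : (r ≫ g ≫ i : M ⟶ M) = 0 := h1
      rw [h2, h3, zero_comp, comp_zero]
    · right
      have h3 : (r ≫ g ≫ i : M ⟶ M) = r ≫ i := h1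
      rw [h2, h3]
      change i ≫ (r ≫ i) ≫ r = 𝟙 A
      rw [Category.assoc, h, Category.comp_id, h]
  · intro g
    obtain ⟨p, hp, hp'⟩ := E.exists_poly hX (sandwich i r g)
    refine ⟨p, hp, ?_⟩
    have h1 := comp_aeval_comp i r h g p
    rw [hp'] at h1
    have h3 : (r ≫ i) ≫ (0 : M ⟶ M) = 0 := comp_zero
    have h4 : r ≫ (Polynomial.aeval g p : End A) ≫ i = 0 := h1.trans h3
    have h5 : (Polynomial.aeval g p : End A) = i ≫ (r ≫ (Polynomial.aeval g p : End A) ≫ i) ≫ r := by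
      simp only [Category.assoc]
      rw [h, Category.comp_id, ← Category.assoc, h, Category.id_comp]
    rw [h5, h4, zero_comp, comp_zero]

/-- a nonzero summand of `M` is not isomorphic to a nontrivial twist of itself -/
lemma isEmpty_twist (E : MotiveOver coh X U M) (hX : HomNil coh X) {A : C} (i : A ⟶ M)
    (r : M ⟶ A) (h : i ≫ r = 𝟙 A) (h0 : (r ≫ i : M ⟶ M) ≠ 0) {n : ℤ} (hn : n ≠ 0) :
    IsEmpty (A ≅ A⟦n⟧) := by
  constructor
  intro e
  let ψ : A ⟶ A⟦-n⟧ := (shiftFunctorCompIsoId C n (-n) (by omega)).inv.app A ≫ (e.inv)⟦-n⟧'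
  have h1 : ShiftedHom.comp ψ (show A ⟶ A⟦n⟧ from e.hom) (add_neg_cancel n) =
      ShiftedHom.mk₀ 0 rfl (𝟙 A) := by
    rw [ShiftedHom.comp, mk₀_eq, Category.id_comp]
    change ((shiftFunctorCompIsoId C n (-n) _).inv.app A ≫ (e.inv)⟦-n⟧') ≫ e.hom⟦-n⟧' ≫ _ = _
    rw [Category.assoc, ← Functor.map_comp_assoc, e.inv_hom_id, CategoryTheory.Functor.map_id,
      Category.id_comp]
    simp [shiftFunctorCompIsoId]
  let y : M ⟶ M⟦-n⟧ := r ≫ ψ ≫ i⟦-n⟧'
  let x : M ⟶ M⟦n⟧ := r ≫ e.hom ≫ i⟦n⟧'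
  have h2 : ShiftedHom.comp y x (add_neg_cancel n) = ShiftedHom.mk₀ 0 rfl (r ≫ i) := by
    have h3 : ShiftedHom.comp y x (add_neg_cancel n) =
        r ≫ (ShiftedHom.comp ψ (show A ⟶ A⟦n⟧ from e.hom) (add_neg_cancel n)) ≫ i⟦(0 : ℤ)⟧' := by
      rw [ShiftedHom.comp, ShiftedHom.comp]
      change (r ≫ ψ ≫ i⟦-n⟧') ≫ (r ≫ e.hom ≫ i⟦n⟧')⟦-n⟧' ≫ _ = _
      rw [Functor.map_comp, Functor.map_comp]
      simp only [Category.assoc]
      rw [← Functor.map_comp_assoc (shiftFunctor C (-n)) i r, h, CategoryTheory.Functor.map_id,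
        Category.id_comp]
      have h4 := (shiftFunctorAdd' C n (-n) 0 (add_neg_cancel n)).inv.naturality i
      simp only [Functor.comp_map] at h4
      rw [h4]
    rw [h3, h1, mk₀_eq, mk₀_eq, Category.id_comp, Category.assoc]
    have h5 := (shiftFunctorZero C ℤ).inv.naturality i
    simp only [Functor.id_map] at h5
    change r ≫ (shiftFunctorZero C ℤ).inv.app A ≫ i⟦(0 : ℤ)⟧' = _
    rw [← h5]
    rfl
  set a := E.ext (-n) y with ha
  set b := E.ext n x with hb
  set c := E.toCorr (r ≫ i) with hc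
  have hab : a * b = c := by
    rw [ha, hb, ← E.ext_comp (c := 0) y x (add_neg_cancel n), h2]
    rfl
  have hcb : c * b = b := by
    rw [hc, hb]
    change E.ext 0 _ * E.ext n x = _
    rw [← E.ext_comp (c := n) _ _ (add_zero n), ShiftedHom.mk₀_comp]
    congr 1
    change (r ≫ i) ≫ r ≫ e.hom ≫ i⟦n⟧' = r ≫ e.hom ≫ i⟦n⟧'
    rw [Category.assoc, ← Category.assoc i, h, Category.id_comp]
  have hpow : ∀ k : ℕ, a ^ (k + 1) * b ^ (k + 1) = c := by
    intro k
    induction k with
    | zero => rw [zero_add, pow_one, pow_one, hab]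
    | succ k ih =>
      calc a ^ (k + 1 + 1) * b ^ (k + 1 + 1) = a ^ (k + 1) * (a * b) * b ^ (k + 1) := by
            rw [pow_succ a, pow_succ' b]
            simp only [mul_assoc]
        _ = a ^ (k + 1) * (c * b) * b ^ k := by
            rw [hab, pow_succ' b]
            simp only [mul_assoc]
        _ = a ^ (k + 1) * b ^ (k + 1) := by
            rw [hcb, pow_succ' b, mul_assoc]
        _ = c := ih
  -- `b` is nilpotent
  obtain ⟨N, hN⟩ := E.degree n hn x
  have h6 : act coh X (b ^ N) = 0 := by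
    rw [map_pow]
    exact hN
  obtain ⟨N', hN'⟩ := hX _ (act_eq_zero.1 h6)
  have h7 : b ^ (N * N' + 1) = 0 := by
    rw [pow_succ, pow_mul, hN', zero_mul]
  have h8 := hpow (N * N')
  rw [h7, mul_zero] at h8
  exact h0 (E.toCorr_injective h8.symm)

/-- **The theorem of Krull and Schmidt** -/
theorem exists_pieces (E : MotiveOver coh X U M) (hX : HomNil coh X)
    [FiniteDimensional ℚ (coh.obj X)] [IsIdempotentComplete C] [HasFiniteBiproducts C] :
    ∃ (m : ℕ) (A : Fin m → C), Nonempty (M ≅ ⨁ A) ∧ (∀ k, IsLocalRing (End (A k))) ∧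
      ∀ k, ∀ n : ℤ, n ≠ 0 → IsEmpty (A k ≅ (A k)⟦n⟧) := by
  classical
  obtain ⟨m, e, he, h0, hprim⟩ := E.exists_primitive hX
  have hsplit : ∀ k, ∃ (A : C) (i : A ⟶ M) (r : M ⟶ A), i ≫ r = 𝟙 A ∧ r ≫ i = e k := fun k =>
    IsIdempotentComplete.idempotents_split M (e k) (he.idem k)
  choose A i r hir hri using hsplit
  refine ⟨m, A, ⟨?_⟩, fun k => ?_, fun k n hn => ?_⟩
  · have hoff : ∀ k l, k ≠ l → i k ≫ r l = 0 := by
      intro k l hkl
      have h1 : (e k ≫ e l : M ⟶ M) = 0 := he.ortho (i := l) (j := k) hkl.symm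
      calc i k ≫ r l = i k ≫ ((r k ≫ i k) ≫ (r l ≫ i l)) ≫ r l := by
            simp only [Category.assoc]
            rw [hir, Category.comp_id, ← Category.assoc (i k) (r k), hir, Category.id_comp]
        _ = 0 := by rw [hri, hri, h1, zero_comp, comp_zero]
    refine ⟨biproduct.lift r, biproduct.desc i, ?_, ?_⟩
    · rw [biproduct.lift_desc]
      have h1 : ∑ k, r k ≫ i k = ∑ k, (e k : M ⟶ M) := Finset.sum_congr rfl (fun k _ => hri k)
      rw [h1]
      exact he.complete
    · refine biproduct.hom_ext _ _ (fun k => biproduct.hom_ext' _ _ (fun l => ?_))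
      rw [Category.assoc, biproduct.lift_π, biproduct.ι_desc_assoc, Category.id_comp]
      by_cases hkl : l = k
      · subst hkl
        rw [hir, biproduct.ι_π_self]
      · rw [biproduct.ι_π_ne _ hkl, hoff l k hkl]
  · refine E.isLocalRing_end hX (i k) (r k) (hir k) (by rw [hri]; exact h0 k) ?_
    intro a ha h1 h2
    have h3 : (show End M from r k ≫ i k) = e k := hri k
    rw [h3] at h1 h2 ⊢
    exact hprim k a ha h1 h2
  · exact E.isEmpty_twist hX (i k) (r k) (hir k) (by rw [hri]; exact h0 k) hn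

end MotiveOver

end Pool.Agent.Lib.OrlovNil
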