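import Pool.Agent.Lib.OrlovNil.Iso


/-!
# The summand that does not come from `Q`
-/

set_option autoImplicit false

open CategoryTheory CategoryTheory.Limits

namespace Pool.Agent.Lib.OrlovNil

open Pool.Agent.Lib.NilDescent Pool.Agent.Lib.MP_5c0b30_ag Pool.Agent.Lib.OrlovCurves
  Pool.Agent.Lib.OrlovCI

universe v u v₁ u₁

variable {V : Type u₁} [Category.{v₁} V] [Preadditive V] [Linear ℚ V]
    {coh : V ⥤ ModuleCat.{0} ℚ} [coh.Additive] {X Q : V} {Γ : Type*} [Group Γ]
    [MulSemiringAction Γ (End X)]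

/-- an idempotent which kills the class factors through `Q` -/
theorem idempotent_mem_through (F : FewCycles coh X Q Γ) (hs : F.Scalar) {e : End X}
    (he : e * e = e) (h : act coh X e F.vec = 0) : (e : X ⟶ X) ∈ Through X Q := by
  obtain ⟨U, hU, hU', hUe⟩ := F.orbits e
  obtain ⟨N, hN⟩ := exists_prod_mem_level (Γ := Γ) (I := throughIdeal X Q)
    (R := killIdeal F) 
    (fun g t ht => mem_throughIdeal.2 (F.smul_through g t (mem_throughIdeal.1 ht)))
    (fun g t ht => hs.smul g t ht) (n := F.n)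
    (fun l hl h => mem_throughIdeal.2 (prod_mem_through F l hl h)) U
  have h1 : e ^ N ∈ throughIdeal X Q := by
    have := hN (List.replicate N e) List.length_replicate (by
      intro x hx
      rw [List.eq_of_mem_replicate hx]
      exact ⟨h, hUe⟩)
    rwa [List.prod_replicate] at this
  have h2 : ∀ k : ℕ, e ^ (k + 1) = e := by
    intro k
    induction k with
    | zero => rw [zero_add, pow_one]
    | succ k ih => rw [pow_succ, ih, he]
  have h3 : e ^ (N + 1) ∈ throughIdeal X Q := by
    rw [pow_succ']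
    exact (throughIdeal X Q).mul_mem_left _ h1
  rw [h2] at h3
  exact mem_throughIdeal.1 h3

variable {U : Subgroup Γ} {C : Type u} [Category.{v} C] [Preadditive C] [Linear ℚ C]
  [HasShift C ℤ] {M : C}

namespace MotiveOver

omit [coh.Additive] in
lemma proj_eq (E : MotiveOver coh X U M) {m : ℕ} {A : Fin m → C} [HasFiniteBiproducts C]
    (s : M ≅ ⨁ A) (k : Fin m) :
    E.proj s k = E.toCorr (s.hom ≫ biproduct.π A k ≫ biproduct.ι A k ≫ s.inv) := rfl

omit [coh.Additive] in
lemma proj_mul_proj (E : MotiveOver coh X U M) {m : ℕ} {A : Fin m → C} [HasFiniteBiproducts C]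
    (s : M ≅ ⨁ A) (k l : Fin m) : E.proj s k * E.proj s l = if k = l then E.proj s k else 0 := by
  classical
  rw [proj_eq, proj_eq, ← E.toCorr_comp]
  split_ifs with h
  · subst h
    congr 1
    simp
  · have : (s.hom ≫ biproduct.π A k ≫ biproduct.ι A k ≫ s.inv) ≫
        s.hom ≫ biproduct.π A l ≫ biproduct.ι A l ≫ s.inv = 0 := by
      simp [biproduct.ι_π_ne_assoc A h]
    rw [this, map_zero]

omit [coh.Additive] in
lemma sum_proj (E : MotiveOver coh X U M) {m : ℕ} {A : Fin m → C} [HasFiniteBiproducts C]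
    (s : M ≅ ⨁ A) : ∑ k, E.proj s k = 1 := by
  simp only [proj_eq]
  rw [← map_sum, ← E.toCorr_id]
  congr 1
  have h2 := biproduct.total (f := A)
  calc _ = s.hom ≫ (∑ k, biproduct.π A k ≫ biproduct.ι A k) ≫ s.inv := by
        simp only [Preadditive.sum_comp, Preadditive.comp_sum, Category.assoc]
    _ = 𝟙 M := by rw [h2, Category.id_comp, s.hom_inv_id]

/-- all summands but one come from `Q` -/
theorem exists_unique_piece (E : MotiveOver coh X U M) (F : FewCycles coh X Q Γ) (hs : F.Scalar)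
    {m : ℕ} {A : Fin m → C} [HasFiniteBiproducts C] (s : M ≅ ⨁ A) :
    ∃ k₀, act coh X (E.proj s k₀) F.vec = F.vec ∧ ∀ k, k ≠ k₀ →
      (E.proj s k : X ⟶ X) ∈ Through X Q := by
  classical
  have hq : ∀ k, ∃ q : ℚ, act coh X (E.proj s k) F.vec = q • F.vec := fun k =>
    hs.scalar (E.proj s k : X ⟶ X)
  choose q hq using hq
  have hsum : ∑ k, q k = 1 := by
    have h1 : act coh X (∑ k, E.proj s k) F.vec = (∑ k, q k) • F.vec := by
      rw [map_sum, LinearMap.sum_apply, Finset.sum_smul]
      exact Finset.sum_congr rfl (fun k _ => hq k)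
    rw [E.sum_proj s, map_one, Module.End.one_apply] at h1
    have h2 : (1 - ∑ k, q k) • F.vec = 0 := by
      rw [sub_smul, one_smul, ← h1, sub_self]
    rcases smul_eq_zero.1 h2 with h3 | h3
    · exact (sub_eq_zero.1 h3).symm
    · exact absurd h3 F.vec_ne
  have hmul : ∀ k l, k ≠ l → q k * q l = 0 := by
    intro k l hkl
    have h1 : act coh X (E.proj s k * E.proj s l) F.vec = (q k * q l) • F.vec := by
      rw [map_mul, Module.End.mul_apply, hq l, map_smul, hq k, smul_smul, mul_comm]
    rw [E.proj_mul_proj, if_neg hkl, map_zero, LinearMap.zero_apply] at h1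
    rcases smul_eq_zero.1 h1.symm with h2 | h2
    · exact h2
    · exact absurd h2 F.vec_ne
  obtain ⟨k₀, hk₀⟩ : ∃ k₀, q k₀ ≠ 0 := by
    by_contra h
    push Not at h
    rw [Finset.sum_eq_zero (fun k _ => h k)] at hsum
    exact zero_ne_one hsum
  have h0 : ∀ k, k ≠ k₀ → q k = 0 := fun k hk => by
    rcases mul_eq_zero.1 (hmul k k₀ hk) with h | h
    · exact h
    · exact absurd h hk₀
  have h1 : q k₀ = 1 := by
    rw [← hsum, Finset.sum_eq_single k₀ (fun k _ hk => h0 k hk) (by simp)]
  refine ⟨k₀, by rw [hq, h1, one_smul], fun k hk => ?_⟩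
  refine idempotent_mem_through F hs ?_ (by rw [hq, h0 k hk, zero_smul])
  rw [E.proj_mul_proj, if_pos rfl]

variable [∀ n : ℤ, (shiftFunctor C n).Additive]

/-- the remaining summand is not isomorphic to a twist of another one -/
theorem isEmpty_iso_twist (E : MotiveOver coh X U M) (F : FewCycles coh X Q Γ)
    {m : ℕ} {A : Fin m → C} [HasFiniteBiproducts C] (s : M ≅ ⨁ A) {k₀ k : Fin m}
    (h₀ : act coh X (E.proj s k₀) F.vec = F.vec) (hk : (E.proj s k : X ⟶ X) ∈ Through X Q)
    (i : ℤ) : IsEmpty (A k ≅ (A k₀)⟦i⟧) := by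
  constructor
  intro e
  let ε : OrbitIso (A k) (A k₀) := (OrbitIso.ofCIso e).trans (OrbitIso.shiftIso (A k₀) i)
  let i' : ∀ l, A l ⟶ M := fun l => biproduct.ι A l ≫ s.inv
  let r' : ∀ l, M ⟶ A l := fun l => s.hom ≫ biproduct.π A l
  have hir : ∀ l, i' l ≫ r' l = 𝟙 (A l) := fun l => by simp [i', r']
  have hp : ∀ l, E.proj s l = E.total (orbitComp (deg0 (r' l)) (deg0 (i' l))) := by
    intro l
    rw [← deg0_comp, deg0, total_hof]
    change E.ext 0 _ = E.ext 0 _
    simp only [r', i', Category.assoc]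
  let a : OrbitHom M M := orbitComp (deg0 (r' k₀)) (orbitComp ε.inv (deg0 (i' k)))
  let b : OrbitHom M M := orbitComp (deg0 (r' k)) (orbitComp ε.hom (deg0 (i' k₀)))
  have h1 : orbitComp a (orbitComp (orbitComp (deg0 (r' k)) (deg0 (i' k))) b) =
      orbitComp (deg0 (r' k₀)) (deg0 (i' k₀)) := by
    have h2 : orbitComp (deg0 (i' k)) (deg0 (r' k)) = orbitId (A k) := by
      rw [← deg0_comp, hir, deg0_id]
    calc orbitComp a (orbitComp (orbitComp (deg0 (r' k)) (deg0 (i' k))) b) =
          orbitComp (deg0 (r' k₀)) (orbitComp ε.inv (orbitComp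
            (orbitComp (deg0 (i' k)) (deg0 (r' k))) (orbitComp
            (orbitComp (deg0 (i' k)) (deg0 (r' k))) (orbitComp ε.hom (deg0 (i' k₀)))))) := by
          simp only [a, b, orbitComp_assoc]
      _ = orbitComp (deg0 (r' k₀)) (orbitComp (orbitComp ε.inv ε.hom) (deg0 (i' k₀))) := by
          rw [h2, orbitId_comp, orbitId_comp, orbitComp_assoc]
      _ = _ := by rw [ε.inv_hom_id, orbitId_comp]
  have h2 : E.proj s k₀ = E.total a * (E.proj s k * E.total b) := by
    rw [hp k₀, hp k, ← h1, E.total_comp, E.total_comp]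
  have h3 : E.proj s k₀ ∈ throughIdeal X Q := by
    rw [h2]
    exact (throughIdeal X Q).mul_mem_left _
      ((throughIdeal X Q).mul_mem_right _ (mem_throughIdeal.2 hk))
  have h4 := act_through F (mem_throughIdeal.1 h3)
  rw [h₀] at h4
  exact F.vec_ne h4

end MotiveOver

end Pool.Agent.Lib.OrlovNil
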