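import Pool.Agent.Lib.OrlovNil.Pieces

/-!
# Objects isomorphic in the orbit category to a sum of pieces
-/

set_option autoImplicit false

open CategoryTheory CategoryTheory.Limits ZeroObject

namespace Pool.Agent.Lib.OrlovNil

open Pool.Agent.Lib.MP_5c0b30_ag Pool.Agent.Lib.OrlovCurves Pool.Agent.Lib.OrlovCI

universe v u

variable {C : Type u} [Category.{v} C] [HasShift C ℤ]

/-- `B` is isomorphic to a twist of `A` -/
def TwistIso (B A : C) : Prop := ∃ n : ℤ, Nonempty (B ≅ A⟦n⟧)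

lemma TwistIso.refl (A : C) : TwistIso A A := ⟨0, ⟨((shiftFunctorZero C ℤ).app A).symm⟩⟩

lemma TwistIso.trans {A B D : C} (h : TwistIso A B) (h' : TwistIso B D) : TwistIso A D := by
  obtain ⟨n, ⟨e⟩⟩ := h
  obtain ⟨m, ⟨f⟩⟩ := h'
  exact ⟨m + n, ⟨e ≪≫ (shiftFunctor C n).mapIso f ≪≫
    ((shiftFunctorAdd' C m n (m + n) rfl).app D).symm⟩⟩

lemma TwistIso.symm {A B : C} (h : TwistIso A B) : TwistIso B A := by
  obtain ⟨n, ⟨e⟩⟩ := h
  exact ⟨-n, ⟨((shiftFunctorCompIsoId C n (-n) (by omega)).app B).symm ≪≫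
    (shiftFunctor C (-n)).mapIso e.symm⟩⟩

lemma TwistIso.shift (A : C) (n : ℤ) : TwistIso (A⟦n⟧) A := ⟨n, ⟨Iso.refl _⟩⟩

variable (C) in
/-- isomorphism up to twists -/
def twistSetoid : Setoid C where
  r := TwistIso
  iseqv := ⟨TwistIso.refl, TwistIso.symm, TwistIso.trans⟩

variable [Preadditive C] [∀ n : ℤ, (shiftFunctor C n).Additive]

/-- the twists of the objects `A k` -/
def Twists {m : ℕ} (A : Fin m → C) (B : C) : Prop := ∃ k, TwistIso B (A k)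

omit [Preadditive C] [∀ n : ℤ, (shiftFunctor C n).Additive] in
lemma twist_comm {A : C} (i n : ℤ) : Nonempty (A⟦i⟧⟦n⟧ ≅ A⟦n⟧⟦i⟧) :=
  ⟨((shiftFunctorAdd' C i n (i + n) rfl).app A).symm ≪≫
    (shiftFunctorAdd' C n i (i + n) (add_comm n i)).app A⟩

theorem isPieces_twists {m : ℕ} {A : Fin m → C} (hloc : ∀ k, IsLocalRing (End (A k)))
    (hfree : ∀ k, ∀ n : ℤ, n ≠ 0 → IsEmpty (A k ≅ (A k)⟦n⟧)) : IsPieces (Twists A) where
  isLocal := by
    rintro B ⟨k, i, ⟨e⟩⟩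
    have := hloc k
    exact isLocalRing_of_loc ((loc_shift loc_of_isLocalRing i).of_iso e.symm)
  shift := by
    rintro B ⟨k, h⟩ n
    exact ⟨k, (TwistIso.shift B n).trans h⟩
  free := by
    rintro B ⟨k, i, ⟨e⟩⟩ n hn
    constructor
    intro a
    obtain ⟨c⟩ := twist_comm (A := A k) i n
    have b : (A k)⟦i⟧ ≅ (A k)⟦n⟧⟦i⟧ := e.symm ≪≫ a ≪≫ (shiftFunctor C n).mapIso e ≪≫ c
    exact (hfree k n hn).false ((shiftFunctor C i).preimageIso b)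

lemma card_twist_eq_zero {A : C} {𝒜 : C → Prop} (hs : ∀ A, 𝒜 A → ∀ n : ℤ, 𝒜 (A⟦n⟧))
    (hiso : ∀ A B, 𝒜 A → Nonempty (B ≅ A) → 𝒜 B) (hA : ¬ 𝒜 A) {μ : Type} {B : μ → C}
    (hB : ∀ k, 𝒜 (B k)) : Nat.card {k // ∃ b : ℤ, Nonempty (B k ≅ A⟦b⟧)} = 0 := by
  have : IsEmpty {k // ∃ b : ℤ, Nonempty (B k ≅ A⟦b⟧)} := by
    constructor
    rintro ⟨k, h⟩
    have h1 : TwistIso (B k) A := h
    obtain ⟨n, h2⟩ := h1.symm
    exact hA (hiso _ _ (hs _ (hB k) n) h2)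
  exact Nat.card_of_isEmpty

variable [HasFiniteBiproducts C] [HasBinaryBiproducts C] [IsIdempotentComplete C] [Linear ℚ C]

/-- **Every object isomorphic to `⨁ A k` in the orbit category is `⨁ (A k)⟦n k⟧`.** -/
theorem exists_twists {m : ℕ} {A : Fin m → C} (hloc : ∀ k, IsLocalRing (End (A k)))
    (hfree : ∀ k, ∀ n : ℤ, n ≠ 0 → IsEmpty (A k ≅ (A k)⟦n⟧)) {M M' : C} (hM : M ≅ ⨁ A)
    (e : OrbitEquiv M M') : ∃ n : Fin m → ℤ, Nonempty (M' ≅ ⨁ fun k => (A k)⟦n k⟧) := by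
  classical
  have hP := isPieces_twists hloc hfree
  have hA : ∀ k, Twists A (A k) := fun k => ⟨k, TwistIso.refl _⟩
  have hiso : ∀ A' B, Twists A A' → Nonempty (B ≅ A') → Twists A B := by
    rintro A' B ⟨k, n, ⟨f⟩⟩ ⟨g⟩
    exact ⟨k, n, ⟨g ≪≫ f⟩⟩
  let d : Dec M (0 : C) A := decOfBiproduct hM
  have hz : 𝟙 (0 : C) = 0 := HasZeroObject.from_zero_ext _ _
  have h1 := one_mem_through_orbit hP.shift e (one_mem_through hz hA d)
  obtain ⟨μ', _, E', Z', hZ', hE', ⟨d'⟩⟩ := exists_dec (fun A hA => hP.loc hA) h1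
  have h2 : ∀ D : C, Nat.card {k // ∃ b : ℤ, Nonempty (A k ≅ D⟦b⟧)} =
      Nat.card {k // ∃ b : ℤ, Nonempty (E' k ≅ D⟦b⟧)} := by
    intro D
    by_cases hD : Twists A D
    · exact card_orb' hP hD e hz hZ' hA hE' d d'
    · rw [card_twist_eq_zero hP.shift hiso hD hA, card_twist_eq_zero hP.shift hiso hD hE']
  let Q := Quotient (twistSetoid C)
  let cl : C → Q := fun X => Quotient.mk (twistSetoid C) X
  have hcl : ∀ X Y : C, cl X = cl Y ↔ TwistIso X Y := fun X Y => Quotient.eq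
  have h3 : ∀ q : Q, Nonempty ({k // cl (A k) = q} ≃ {k // cl (E' k) = q}) := by
    intro q
    obtain ⟨D, rfl⟩ := Quotient.exists_rep q
    have h4 : ∀ {ν : Type} (G : ν → C),
        Nonempty ({k // cl (G k) = cl D} ≃ {k // ∃ b : ℤ, Nonempty (G k ≅ D⟦b⟧)}) := by
      intro ν G
      refine ⟨Equiv.subtypeEquivRight (fun k => ?_)⟩
      rw [hcl]
      rfl
    obtain ⟨e1⟩ := h4 A
    obtain ⟨e2⟩ := h4 E'
    have h5 := h2 D
    rw [Nat.card_eq_fintype_card, Nat.card_eq_fintype_card] at h5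
    exact ⟨e1.trans ((Fintype.equivOfCardEq h5).trans e2.symm)⟩
  let σ : Fin m ≃ μ' := (Equiv.sigmaFiberEquiv (fun k => cl (A k))).symm.trans
    ((Equiv.sigmaCongrRight (fun q => (h3 q).some)).trans
      (Equiv.sigmaFiberEquiv (fun k => cl (E' k))))
  have hσ : ∀ k, TwistIso (E' (σ k)) (A k) := by
    intro k
    rw [← hcl]
    exact ((h3 (cl (A k))).some ⟨k, rfl⟩).2
  choose n hn using hσ
  have z : Z' ≅ (0 : C) := by
    refine ⟨0, 0, ?_, HasZeroObject.from_zero_ext _ _⟩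
    rw [zero_comp, hZ']
  have f : (⨁ E') ≅ ⨁ fun k => (A k)⟦n k⟧ :=
    (biproduct.whiskerEquiv σ (fun k => (hn k).some)).symm
  have g : M' ≅ ⨁ E' := by
    refine d'.toIso ≪≫ ⟨biprod.snd, biprod.inr, ?_, by simp⟩
    have h6 : biprod.fst ≫ biprod.inl + biprod.snd ≫ biprod.inr = 𝟙 (Z' ⊞ ⨁ E') := biprod.total
    have h7 : (biprod.fst : Z' ⊞ ⨁ E' ⟶ Z') ≫ (biprod.inl : Z' ⟶ Z' ⊞ ⨁ E') = 0 := by
      rw [← Category.comp_id (biprod.fst : Z' ⊞ ⨁ E' ⟶ Z'), hZ', comp_zero, zero_comp]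
    rw [h7, zero_add] at h6
    exact h6
  exact ⟨n, ⟨g ≪≫ f⟩⟩

end Pool.Agent.Lib.OrlovNil
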